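import Mathlib

/-!
# Thompson's conjecture for the alternating groups

For every `n ≥ 5` the group `A_n` has a conjugacy class `C` with `C * C = A_n` (Hsu 1965, Bertram 1972).
The class consists of the `l`-cycles for a suitable odd `l`, except for `n = 6` and `n = 8`, where it is the class
of the products of two transpositions, resp. of two 3-cycles.  This is a known theorem: the file is a helper.
-/

namespace Pool.Agent.ThA
open Equiv Equiv.Perm List

section list
variable {α : Type*} [DecidableEq α]

/-- Two cycles that meet in one letter. -/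
theorem fp_mul (u v : List α) (x : α) :
    (u ++ [x]).formPerm * (x :: v).formPerm = (u ++ x :: v).formPerm := by
  induction u with
  | nil => simp
  | cons a u ih =>
    cases u with
    | nil => simp [List.formPerm_cons_cons]
    | cons b u =>
      simp only [List.cons_append, List.formPerm_cons_cons] at ih ⊢
      rw [mul_assoc, ih]

theorem fp_rot (u v : List α) (h : (u ++ v).Nodup) : (u ++ v).formPerm = (v ++ u).formPerm :=
  List.formPerm_eq_of_isRotated h List.isRotated_append

theorem fp_fix (s : Finset α) (u : List α) (hu : ∀ y ∈ u, y ∈ s) (z : α) (hz : z ∉ s) :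
    u.formPerm z = z :=
  List.formPerm_apply_of_notMem (fun h => hz (hu z h))

/-- permutations that fix everything outside of two disjoint sets -/
theorem disj {f g : Perm α} {s t : Finset α} (hd : _root_.Disjoint s t) (hf : ∀ z, z ∉ s → f z = z)
    (hg : ∀ z, z ∉ t → g z = z) : Equiv.Perm.Disjoint f g := by
  intro z
  by_cases hz : z ∈ s
  · exact Or.inr (hg z (Finset.disjoint_left.1 hd hz))
  · exact Or.inl (hf z hz)

end list

theorem supp_fp {α : Type*} [DecidableEq α] [Fintype α] {L : List α} (h : L.Nodup) (h2 : 2 ≤ L.length) :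
    L.formPerm.support.card = L.length := by
  rw [List.support_formPerm_of_nodup L h (fun x hx => by rw [hx] at h2; simp at h2),
    List.toFinset_card_of_nodup h]

theorem ct_fp {α : Type*} [DecidableEq α] [Fintype α] {L : List α} (h : L.Nodup) (h2 : 2 ≤ L.length) :
    L.formPerm.cycleType = {L.length} := by
  rw [(List.isCycle_formPerm h h2).cycleType, supp_fp h h2]

section good
variable (α : Type*) [DecidableEq α] [Fintype α]

/-- On every set of the right size there are cycles of lengths `l` and `l'` (length one: the identity) with a common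
letter and a product of cycle type `μ`. -/
def Good (μ : Multiset ℕ) (l l' : ℕ) : Prop :=
  ∀ s : Finset α, s.card = μ.sum → ∃ (x : α) (p q : List α), (x :: p).Nodup ∧ (x :: q).Nodup ∧
    p.length + 1 = l ∧ q.length + 1 = l' ∧ (∀ y ∈ x :: p, y ∈ s) ∧ (∀ y ∈ x :: q, y ∈ s) ∧
    ((x :: p).formPerm * (x :: q).formPerm).cycleType = μ

variable {α}

theorem block {c l l' : ℕ} (hc : 2 ≤ c) (hl : 1 ≤ l) (hl' : 1 ≤ l') (h : l + l' = c + 1) :
    Good α {c} l l' := by
  intro s hs
  rw [Multiset.sum_singleton] at hs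
  obtain ⟨L, hL⟩ : ∃ L, L = s.toList := ⟨_, rfl⟩
  have hn : L.Nodup := hL ▸ s.nodup_toList
  have hlen : L.length = c := by rw [hL, Finset.length_toList, hs]
  have hm : ∀ y ∈ L, y ∈ s := fun y hy => by rw [hL] at hy; exact Finset.mem_toList.1 hy
  obtain ⟨u, w, hu, hw, huw⟩ : ∃ u w : List α, u.length = l - 1 ∧ w.length = l' ∧ L = u ++ w :=
    ⟨L.take (l - 1), L.drop (l - 1), by simp; omega, by simp; omega, (List.take_append_drop _ _).symm⟩
  obtain ⟨x, v, rfl⟩ : ∃ x v, w = x :: v := by
    cases w with
    | nil => simp at hw; omega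
    | cons x v => exact ⟨x, v, rfl⟩
  subst huw
  have hn2 : (u ++ [x]).Nodup := by
    have : (u ++ [x]) ++ v = u ++ x :: v := by simp
    rw [← this] at hn
    exact (List.nodup_append.1 hn).1
  have e : (x :: u).formPerm = (u ++ [x]).formPerm := by
    rw [fp_rot u [x] hn2]; rfl
  refine ⟨x, u, v, ?_, ?_, by omega, by simpa using hw, ?_, ?_, ?_⟩
  · have := (List.perm_append_comm (l₁ := u) (l₂ := [x])).nodup_iff.1 hn2
    simpa using this
  · exact (List.nodup_append.1 hn).2.1
  · intro y hy
    apply hm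
    simp only [List.mem_cons] at hy
    simp only [List.mem_append, List.mem_cons]
    tauto
  · intro y hy
    apply hm
    simp only [List.mem_cons] at hy
    simp only [List.mem_append, List.mem_cons]
    tauto
  · rw [e, fp_mul, ct_fp hn (by omega), hlen]

theorem join {μ ν : Multiset ℕ} {l l' k k' : ℕ} (h1 : Good α μ l l') (h2 : Good α ν k k') :
    Good α (μ + ν) (l + k) (l' + k') := by
  intro s hs
  rw [Multiset.sum_add] at hs
  obtain ⟨s1, hs1, hc1⟩ := Finset.exists_subset_card_eq (s := s) (n := μ.sum) (by omega)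
  have hc2 : (s \ s1).card = ν.sum := by
    rw [Finset.card_sdiff_of_subset hs1]; omega
  obtain ⟨x1, p1, q1, np1, nq1, lp1, lq1, sp1, sq1, ct1⟩ := h1 s1 hc1
  obtain ⟨x2, p2, q2, np2, nq2, lp2, lq2, sp2, sq2, ct2⟩ := h2 (s \ s1) hc2
  have hd : _root_.Disjoint s1 (s \ s1) := Finset.disjoint_sdiff
  have dl : ∀ u v : List α, (∀ y ∈ u, y ∈ s1) → (∀ y ∈ v, y ∈ s \ s1) → List.Disjoint u v := by
    intro u v hu hv y hy1 hy2
    exact Finset.disjoint_left.1 hd (hu y hy1) (hv y hy2)
  -- the permutations
  set A1 := (x1 :: p1).formPerm with hA1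
  set B1 := (x1 :: q1).formPerm with hB1
  set A2 := (x2 :: p2).formPerm with hA2
  set B2 := (x2 :: q2).formPerm with hB2
  have fA1 : ∀ z, z ∉ s1 → A1 z = z := fp_fix s1 _ sp1
  have fB1 : ∀ z, z ∉ s1 → B1 z = z := fp_fix s1 _ sq1
  have fA2 : ∀ z, z ∉ s \ s1 → A2 z = z := fp_fix _ _ sp2
  have fB2 : ∀ z, z ∉ s \ s1 → B2 z = z := fp_fix _ _ sq2
  have c12 : Commute A1 A2 := (disj hd fA1 fA2).commute
  have c1b2 : Commute B1 B2 := (disj hd fB1 fB2).commute
  have ca : Commute B1 A2 := (disj hd fB1 fA2).commute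
  -- nodup facts
  have N1 : ((x2 :: (p1 ++ [x1])) ++ p2).Nodup := by
    have hp : ((x1 :: p1) ++ (x2 :: p2)).Nodup := by
      rw [List.nodup_append]
      exact ⟨np1, np2, fun a ha b hb hab => dl _ _ sp1 sp2 ha (hab ▸ hb)⟩
    refine (List.Perm.nodup_iff ?_).1 hp
    rw [List.perm_iff_count]
    intro a
    simp only [List.count_append, List.count_cons, List.count_nil]
    omega
  have N2 : ((x2 :: q2) ++ x1 :: q1).Nodup := by
    rw [List.nodup_append]
    exact ⟨nq2, nq1, fun a ha b hb hab => dl _ _ sq1 sq2 hb (hab ▸ ha)⟩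
  have e1 : (x2 :: ((p1 ++ [x1]) ++ p2)).formPerm = A2 * A1 * swap x1 x2 := by
    have h0 : x2 :: ((p1 ++ [x1]) ++ p2) = (x2 :: (p1 ++ [x1])) ++ p2 := by simp
    rw [h0, fp_rot _ _ N1]
    have h1 : (p2 ++ x2 :: (p1 ++ [x1])).formPerm
        = (p2 ++ [x2]).formPerm * (x2 :: (p1 ++ [x1])).formPerm := (fp_mul _ _ _).symm
    have N3 : (p2 ++ x2 :: (p1 ++ [x1])).Nodup :=
      (List.perm_append_comm).nodup_iff.1 N1
    have N4 : (x2 :: (p1 ++ [x1])).Nodup := (List.nodup_append.1 N3).2.1
    have h2 : (p2 ++ [x2]).formPerm = A2 := by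
      rw [hA2]
      have : (p2 ++ [x2]).Nodup :=
        (List.perm_append_comm (l₁ := [x2]) (l₂ := p2)).nodup_iff.1 (by simpa using np2)
      rw [fp_rot _ _ this]; rfl
    have h3 : (x2 :: (p1 ++ [x1])).formPerm = A1 * swap x1 x2 := by
      have h4 : (x2 :: (p1 ++ [x1])).formPerm = ((p1 ++ [x1]) ++ [x2]).formPerm := by
        have : x2 :: (p1 ++ [x1]) = [x2] ++ (p1 ++ [x1]) := rfl
        rw [this] at N4 ⊢
        exact fp_rot _ _ N4
      have h5 : (p1 ++ [x1]) ++ [x2] = p1 ++ x1 :: [x2] := by simp
      have h6 : (p1 ++ [x1]).formPerm = A1 := by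
        rw [hA1]
        have : (p1 ++ [x1]).Nodup :=
          (List.perm_append_comm (l₁ := [x1]) (l₂ := p1)).nodup_iff.1 (by simpa using np1)
        rw [fp_rot _ _ this]; rfl
      rw [h4, h5, ← fp_mul, h6, List.formPerm_pair]
    rw [h1, h2, h3, mul_assoc]
  have e2 : (x2 :: (q2 ++ x1 :: q1)).formPerm = swap x1 x2 * B2 * B1 := by
    have h0 : x2 :: (q2 ++ x1 :: q1) = (x2 :: q2) ++ x1 :: q1 := by simp
    have N5 : ((x2 :: q2) ++ [x1]).Nodup := by
      have : (x2 :: q2) ++ x1 :: q1 = ((x2 :: q2) ++ [x1]) ++ q1 := by simp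
      rw [this] at N2
      exact (List.nodup_append.1 N2).1
    rw [h0, ← fp_mul, fp_rot _ _ N5]
    show (x1 :: x2 :: q2).formPerm * (x1 :: q1).formPerm = _
    rw [List.formPerm_cons_cons]
  have e3 : A2 * A1 * swap x1 x2 * (swap x1 x2 * B2 * B1) = (A1 * B1) * (A2 * B2) := by
    have : A2 * A1 * swap x1 x2 * (swap x1 x2 * B2 * B1)
        = A2 * A1 * (swap x1 x2 * swap x1 x2) * (B2 * B1) := by group
    rw [this, Equiv.swap_mul_self, mul_one, ← c12.eq, ← c1b2.eq]
    have : A1 * A2 * (B1 * B2) = A1 * (A2 * B1) * B2 := by group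
    rw [this, ← ca.eq]; group
  refine ⟨x2, (p1 ++ [x1]) ++ p2, q2 ++ x1 :: q1, N1, by simpa using N2, ?_, ?_, ?_, ?_, ?_⟩
  · simp only [List.length_append, List.length_cons, List.length_nil]; omega
  · simp only [List.length_append, List.length_cons]; omega
  · intro y hy
    simp only [List.mem_cons, List.mem_append, List.not_mem_nil, or_false] at hy
    rcases hy with h | (h | h) | h
    · exact (Finset.mem_sdiff.1 (sp2 y (by simp [h]))).1
    · exact hs1 (sp1 y (by simp [h]))
    · exact hs1 (sp1 y (by simp [h]))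
    · exact (Finset.mem_sdiff.1 (sp2 y (by simp [h]))).1
  · intro y hy
    simp only [List.mem_cons, List.mem_append] at hy
    rcases hy with h | h | h | h
    · exact (Finset.mem_sdiff.1 (sq2 y (by simp [h]))).1
    · exact (Finset.mem_sdiff.1 (sq2 y (by simp [h]))).1
    · exact hs1 (sq1 y (by simp [h]))
    · exact hs1 (sq1 y (by simp [h]))
  · rw [e1, e2, e3, Equiv.Perm.Disjoint.cycleType_mul, ct1, ct2]
    refine disj hd (fun z hz => ?_) (fun z hz => ?_)
    · rw [Perm.mul_apply, fB1 z hz, fA1 z hz]
    · rw [Perm.mul_apply, fB2 z hz, fA2 z hz]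

theorem good_all (μ : Multiset ℕ) (hμ : ∀ c ∈ μ, 2 ≤ c) : μ ≠ 0 → ∀ l l', l + l' = μ.sum + Multiset.card μ →
    l ≤ l' + 1 → l' ≤ l + 1 → Good α μ l l' := by
  induction μ using Multiset.induction_on with
  | empty => intro h; exact absurd rfl h
  | cons c μ ih =>
    intro _ l l' h h1 h2
    have hc : 2 ≤ c := hμ c (Multiset.mem_cons_self _ _)
    rw [Multiset.sum_cons, Multiset.card_cons] at h
    by_cases h0 : μ = 0
    · subst h0
      simp only [Multiset.sum_zero, Multiset.card_zero] at h
      have : (c ::ₘ (0 : Multiset ℕ)) = {c} := rfl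
      rw [this]
      exact block hc (by omega) (by omega) (by omega)
    · have ih' := ih (fun d hd => hμ d (Multiset.mem_cons_of_mem hd)) h0
      have hsum : 2 * Multiset.card μ ≤ μ.sum := by
        have := Multiset.card_nsmul_le_sum (s := μ) (a := 2)
          (fun d hd => hμ d (Multiset.mem_cons_of_mem hd))
        simpa [mul_comm] using this
      have hcard : 1 ≤ Multiset.card μ := Multiset.card_pos.2 h0
      have e : (c ::ₘ μ) = {c} + μ := (Multiset.singleton_add _ _).symm
      have key : ∃ k k', k + k' = c + 1 ∧ 1 ≤ k ∧ 1 ≤ k' ∧ k ≤ l ∧ k' ≤ l' ∧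
          (l - k) + (l' - k') = μ.sum + Multiset.card μ ∧ l - k ≤ l' - k' + 1 ∧ l' - k' ≤ l - k + 1 := by
        rcases Nat.even_or_odd' c with ⟨d, hd | hd⟩
        · by_cases hll : l ≤ l'
          · exact ⟨d, d + 1, by omega, by omega, by omega, by omega, by omega, by omega, by omega, by omega⟩
          · exact ⟨d + 1, d, by omega, by omega, by omega, by omega, by omega, by omega, by omega, by omega⟩
        · exact ⟨d + 1, d + 1, by omega, by omega, by omega, by omega, by omega, by omega, by omega, by omega⟩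
      obtain ⟨k, k', hk, hk1, hk2, hk3, hk4, hk5, hk6, hk7⟩ := key
      have := join (block (α := α) hc hk1 hk2 hk) (ih' (l - k) (l' - k') hk5 hk6 hk7)
      rw [e]
      have e1 : k + (l - k) = l := by omega
      have e2 : k' + (l' - k') = l' := by omega
      rwa [e1, e2] at this

/-- `σ` is a product of two `l`-cycles -/
def F (l : ℕ) (σ : Perm α) : Prop :=
  ∃ a b : Perm α, a.IsCycle ∧ b.IsCycle ∧ a.support.card = l ∧ b.support.card = l ∧ a * b = σ

theorem F_of_good {l : ℕ} {σ : Perm α} (hl : 2 ≤ l) (h : Good α σ.cycleType l l) : F l σ := by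
  obtain ⟨s, -, hs⟩ := Finset.exists_subset_card_eq (s := (Finset.univ : Finset α))
    (n := σ.cycleType.sum) (by rw [Finset.card_univ]; exact σ.sum_cycleType_le)
  obtain ⟨x, p, q, np, nq, lp, lq, -, -, ct⟩ := h s hs
  obtain ⟨c, hc⟩ := isConj_iff.1 (isConj_of_cycleType_eq ct)
  refine ⟨c * (x :: p).formPerm * c⁻¹, c * (x :: q).formPerm * c⁻¹,
    (List.isCycle_formPerm np (by simp; omega)).conj, (List.isCycle_formPerm nq (by simp; omega)).conj,
    ?_, ?_, ?_⟩
  · rw [card_support_conj, supp_fp np (by simp; omega)]; simpa using lp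
  · rw [card_support_conj, supp_fp nq (by simp; omega)]; simpa using lq
  · rw [← hc]; group

theorem head_eq {β : Type*} (L : List β) (x : β) (h : 0 < L.length) (h0 : L[0] = x) :
    ∃ t, L = x :: t := by
  cases L with
  | nil => simp at h
  | cons z t => exact ⟨t, by rw [← h0]; rfl⟩

theorem ext_cyc {b : Perm α} (hb : b.IsCycle) {x y : α} (hx : x ∈ b.support) (hy : y ∉ b.support) :
    (swap x y * b).IsCycle ∧ (swap x y * b).support.card = b.support.card + 1 := by
  have hL : (toList b x).formPerm = b := by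
    rw [formPerm_toList, hb.cycleOf_eq (mem_support.1 hx)]
  have hlen : (toList b x).length = b.support.card := by
    rw [length_toList, hb.cycleOf_eq (mem_support.1 hx)]
  have h2 : 2 ≤ (toList b x).length := two_le_length_toList_iff_mem_support.2 hx
  have hn : (toList b x).Nodup := nodup_toList b x
  obtain ⟨t, ht⟩ : ∃ t, toList b x = x :: t := by
    exact head_eq _ _ _ (toList_getElem_zero b x hx)
  have hy' : y ∉ toList b x := fun h => hy ((mem_toList_iff.1 h).1.mem_support_iff.1 hx)
  rw [ht] at hL hlen h2 hn hy'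
  have e : swap x y * b = (y :: x :: t).formPerm := by
    rw [List.formPerm_cons_cons, hL, Equiv.swap_comm]
  have hn2 : (y :: x :: t).Nodup := List.nodup_cons.2 ⟨hy', hn⟩
  rw [e]
  refine ⟨List.isCycle_formPerm hn2 (by simp), ?_⟩
  rw [supp_fp hn2 (by simp), ← hlen]; rfl

theorem lift {l : ℕ} {σ : Perm α} (h : F l σ) (hl : l < Fintype.card α) : F (l + 1) σ := by
  obtain ⟨a, b, ha, hb, ca, cb, hab⟩ := h
  -- a letter `x` in the support of `a`, a letter `z` outside, and one of them in the support of `b`, not both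
  obtain ⟨x, z, hx, hz, hh⟩ : ∃ x z, x ∈ a.support ∧ z ∉ a.support ∧
      ((x ∈ b.support ∧ z ∉ b.support) ∨ (z ∈ b.support ∧ x ∉ b.support)) := by
    by_cases hs : a.support = b.support
    · obtain ⟨x, hx⟩ : a.support.Nonempty := by
        rw [← Finset.card_pos]
        have := ha.two_le_card_support
        omega
      obtain ⟨z, hz⟩ : ∃ z, z ∉ a.support := by
        by_contra hcon
        push Not at hcon
        have : a.support = Finset.univ := Finset.eq_univ_iff_forall.2 hcon
        rw [this, Finset.card_univ] at ca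
        omega
      exact ⟨x, z, hx, hz, Or.inl ⟨hs ▸ hx, hs ▸ hz⟩⟩
    · obtain ⟨x, hx, hx'⟩ : ∃ x ∈ a.support, x ∉ b.support := by
        by_contra hcon
        push Not at hcon
        exact hs (Finset.eq_of_subset_of_card_le hcon (by omega))
      obtain ⟨z, hz, hz'⟩ : ∃ x ∈ b.support, x ∉ a.support := by
        by_contra hcon
        push Not at hcon
        exact hs (Finset.eq_of_subset_of_card_le hcon (by omega)).symm
      exact ⟨x, z, hx, hz', Or.inr ⟨hz, hx'⟩⟩
  have h1 := ext_cyc ha.inv (x := x) (y := z) (by rwa [support_inv]) (by rwa [support_inv])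
  have e1 : (swap x z * a⁻¹)⁻¹ = a * swap x z := by
    rw [mul_inv_rev, inv_inv, swap_inv]
  have h1a : (a * swap x z).IsCycle := by rw [← e1]; exact h1.1.inv
  have h1b : (a * swap x z).support.card = l + 1 := by
    rw [← e1, support_inv, h1.2, support_inv, ca]
  have h2 : (swap x z * b).IsCycle ∧ (swap x z * b).support.card = b.support.card + 1 := by
    rcases hh with ⟨h, h'⟩ | ⟨h, h'⟩
    · exact ext_cyc hb h h'
    · rw [Equiv.swap_comm]; exact ext_cyc hb h h'
  refine ⟨a * swap x z, swap x z * b, h1a, h2.1, h1b, by rw [h2.2, cb], ?_⟩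
  rw [← hab]
  have : a * swap x z * (swap x z * b) = a * (swap x z * swap x z) * b := by group
  rw [this, swap_mul_self, mul_one]

theorem lift_le {l l' : ℕ} {σ : Perm α} (h : F l σ) (h1 : l ≤ l') (h2 : l' ≤ Fintype.card α) : F l' σ := by
  induction l', h1 using Nat.le_induction with
  | base => exact h
  | succ k hk ih => exact lift (ih (by omega)) (by omega)

theorem F_one {l : ℕ} (h2 : 2 ≤ l) (hl : l ≤ Fintype.card α) : F l (1 : Perm α) := by
  obtain ⟨s, -, hs⟩ := Finset.exists_subset_card_eq (s := (Finset.univ : Finset α))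
    (n := l) (by rw [Finset.card_univ]; exact hl)
  have hn := s.nodup_toList
  have hlen : s.toList.length = l := by rw [Finset.length_toList, hs]
  have hc := List.isCycle_formPerm hn (by omega)
  have hcs := supp_fp hn (by omega)
  exact ⟨_, _, hc, hc.inv, by omega, by rw [support_inv]; omega, mul_inv_cancel _⟩

theorem parity {σ : Perm α} (hσ : sign σ = 1) : Even (σ.cycleType.sum + Multiset.card σ.cycleType) := by
  rw [sign_of_cycleType] at hσ
  by_contra hne
  rw [Nat.not_even_iff_odd] at hne
  rw [hne.neg_one_pow] at hσ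
  exact absurd hσ (by decide)

/-- **Bertram's theorem**, for even permutations -/
theorem bertram {l : ℕ} (h2 : 2 ≤ l) (hl : l ≤ Fintype.card α) (h3 : 3 * Fintype.card α ≤ 4 * l + 3)
    (σ : Perm α) (hσ : sign σ = 1) : F l σ := by
  by_cases h1 : σ = 1
  · rw [h1]; exact F_one h2 hl
  have hp : ∀ c ∈ σ.cycleType, 2 ≤ c := fun c hc => two_le_of_mem_cycleType hc
  have h0 : σ.cycleType ≠ 0 := fun h => h1 (cycleType_eq_zero.1 h)
  have hcard : 1 ≤ Multiset.card σ.cycleType := Multiset.card_pos.2 h0
  have hsum : 2 * Multiset.card σ.cycleType ≤ σ.cycleType.sum := by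
    have := Multiset.card_nsmul_le_sum (s := σ.cycleType) (a := 2) hp
    simpa [mul_comm] using this
  have hn := σ.sum_cycleType_le
  obtain ⟨l0, hl0⟩ := parity hσ
  have hg := good_all (α := α) σ.cycleType hp h0 l0 l0 hl0.symm (by omega) (by omega)
  exact lift_le (F_of_good (by omega) hg) (by omega) hl

end good

/-- From the class of `S_n` to the class of `A_n`. -/
theorem cls (n : ℕ) (ν : Multiset ℕ) (hs : ν.sum + 2 ≤ n) (he : Even (ν.sum + Multiset.card ν))
    (h : ∀ σ : Perm (Fin n), sign σ = 1 →
      ∃ a b : Perm (Fin n), a.cycleType = ν ∧ b.cycleType = ν ∧ a * b = σ) :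
    ∃ g : alternatingGroup (Fin n), ∀ z : alternatingGroup (Fin n),
      ∃ x y : alternatingGroup (Fin n), IsConj g x ∧ IsConj g y ∧ x * y = z := by
  have hev : ∀ a : Perm (Fin n), a.cycleType = ν → sign a = 1 := by
    intro a ha
    rw [sign_of_cycleType, ha, he.neg_one_pow]
  obtain ⟨g, -, hg, -, -⟩ := h 1 (by simp)
  refine ⟨⟨g, mem_alternatingGroup.2 (hev g hg)⟩, fun z => ?_⟩
  obtain ⟨a, b, ha, hb, hab⟩ := h z (mem_alternatingGroup.1 z.2)
  have hsg : (g.support.card) + 2 ≤ Fintype.card (Fin n) := by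
    rw [← sum_cycleType, hg, Fintype.card_fin]; exact hs
  refine ⟨⟨a, mem_alternatingGroup.2 (hev a ha)⟩, ⟨b, mem_alternatingGroup.2 (hev b hb)⟩,
    alternatingGroup.isConj_of (isConj_of_cycleType_eq (by rw [hg, ha])) hsg,
    alternatingGroup.isConj_of (isConj_of_cycleType_eq (by rw [hg, hb])) hsg, ?_⟩
  exact Subtype.ext hab

/-- From cycle types to permutations. -/
theorem trans_type {α : Type*} [DecidableEq α] [Fintype α] {ν : Multiset ℕ} {σ : Perm α}
    (h : ∃ a b : Perm α, a.cycleType = ν ∧ b.cycleType = ν ∧ (a * b).cycleType = σ.cycleType) :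
    ∃ a b : Perm α, a.cycleType = ν ∧ b.cycleType = ν ∧ a * b = σ := by
  obtain ⟨a, b, ha, hb, hab⟩ := h
  obtain ⟨c, hc⟩ := isConj_iff.1 (isConj_of_cycleType_eq hab)
  refine ⟨c * a * c⁻¹, c * b * c⁻¹, by rw [cycleType_conj, ha], by rw [cycleType_conj, hb], ?_⟩
  rw [← hc]; group

/-- The cycle type of a product of disjoint cycles given by lists. -/
theorem ctl {α : Type*} [DecidableEq α] [Fintype α] (L : List (List α)) (h : L.flatten.Nodup)
    (h2 : ∀ l ∈ L, 2 ≤ l.length) :
    (L.map List.formPerm).prod.cycleType = (L.map List.length : Multiset ℕ) := by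
  induction L with
  | nil => simp
  | cons l L ih =>
    rw [List.flatten_cons, List.nodup_append] at h
    have hfix : ∀ z, z ∉ L.flatten → (L.map List.formPerm).prod z = z := by
      intro z
      clear ih h h2
      induction L with
      | nil => intro _; simp
      | cons k K ihK =>
        intro hz
        rw [List.flatten_cons, List.mem_append, not_or] at hz
        rw [List.map_cons, List.prod_cons, Perm.mul_apply, ihK hz.2]
        exact List.formPerm_apply_of_notMem hz.1
    have hd : Equiv.Perm.Disjoint l.formPerm (L.map List.formPerm).prod := by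
      intro z
      by_cases hz : z ∈ l
      · right
        exact hfix z (fun hz' => h.2.2 z hz z hz' rfl)
      · left
        exact List.formPerm_apply_of_notMem hz
    rw [List.map_cons, List.prod_cons, hd.cycleType_mul, ih h.2.1 (fun k hk => h2 k (List.mem_cons_of_mem _ hk)),
      ct_fp h.1 (h2 l List.mem_cons_self), List.map_cons]
    rfl

/-- Disjoint cycles `La`, `Lb` of type `ν` with a product of type `μ`. -/
theorem wit {n : ℕ} {ν μ : Multiset ℕ} (La Lb Lc : List (List (Fin n)))
    (ha : La.flatten.Nodup) (hb : Lb.flatten.Nodup) (hc : Lc.flatten.Nodup)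
    (ha2 : ∀ l ∈ La, 2 ≤ l.length) (hb2 : ∀ l ∈ Lb, 2 ≤ l.length) (hc2 : ∀ l ∈ Lc, 2 ≤ l.length)
    (hea : (La.map List.length : Multiset ℕ) = ν) (heb : (Lb.map List.length : Multiset ℕ) = ν)
    (hec : (Lc.map List.length : Multiset ℕ) = μ)
    (h : (La.map List.formPerm).prod * (Lb.map List.formPerm).prod = (Lc.map List.formPerm).prod) :
    ∃ a b : Perm (Fin n), a.cycleType = ν ∧ b.cycleType = ν ∧ (a * b).cycleType = μ :=
  ⟨_, _, (ctl La ha ha2).trans hea, (ctl Lb hb hb2).trans heb, by rw [h, ctl Lc hc hc2, hec]⟩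

/-- Multisets with small sum and parts at least 2. -/
theorem small6 (μ : Multiset ℕ) (h2 : ∀ c ∈ μ, 2 ≤ c) (hs : μ.sum ≤ 6)
    (he : Even (μ.sum + Multiset.card μ)) :
    μ = 0 ∨ μ = {3} ∨ μ = {5} ∨ μ = {2, 2} ∨ μ = {4, 2} ∨ μ = {3, 3} := by
  have hsum : 2 * Multiset.card μ ≤ μ.sum := by
    have := Multiset.card_nsmul_le_sum (s := μ) (a := 2) h2
    simpa [mul_comm] using this
  have hcard : Multiset.card μ = 0 ∨ Multiset.card μ = 1 ∨ Multiset.card μ = 2 ∨ Multiset.card μ = 3 := by omega
  rcases hcard with h | h | h | h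
  · exact Or.inl (Multiset.card_eq_zero.1 h)
  · obtain ⟨a, rfl⟩ := Multiset.card_eq_one.1 h
    have ha := h2 a (by simp)
    simp only [Multiset.sum_singleton, Multiset.card_singleton] at hs he
    have ha' : a ≤ 6 := hs
    interval_cases a <;> first | (exfalso; revert he; decide) | decide
  · obtain ⟨a, b, rfl⟩ := Multiset.card_eq_two.1 h
    have ha := h2 a (by simp)
    have hb := h2 b (by simp)
    have e : ({a, b} : Multiset ℕ).sum = a + b := by simp
    rw [e] at hs he
    rw [h] at he
    have ha' : a ≤ 4 := by omega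
    have hb' : b ≤ 4 := by omega
    clear e h hsum
    interval_cases a <;> interval_cases b <;> first | (exfalso; omega) | (exfalso; revert he; decide) | decide
  · obtain ⟨a, b, c, rfl⟩ := Multiset.card_eq_three.1 h
    have ha := h2 a (by simp)
    have hb := h2 b (by simp)
    have hc := h2 c (by simp)
    have e : ({a, b, c} : Multiset ℕ).sum = a + (b + c) := by simp
    rw [e] at hs he
    rw [h] at he
    have : a = 2 := by omega
    have : b = 2 := by omega
    have : c = 2 := by omega
    subst a b c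
    exfalso; revert he; decide

theorem small8 (μ : Multiset ℕ) (h2 : ∀ c ∈ μ, 2 ≤ c) (hs : μ.sum ≤ 8)
    (he : Even (μ.sum + Multiset.card μ)) :
    μ = 0 ∨ μ = {3} ∨ μ = {5} ∨ μ = {7} ∨ μ = {2, 2} ∨ μ = {4, 2} ∨ μ = {3, 3} ∨ μ = {6, 2} ∨
      μ = {5, 3} ∨ μ = {4, 4} ∨ μ = {3, 2, 2} ∨ μ = {2, 2, 2, 2} := by
  have hsum : 2 * Multiset.card μ ≤ μ.sum := by
    have := Multiset.card_nsmul_le_sum (s := μ) (a := 2) h2
    simpa [mul_comm] using this
  have hcard : Multiset.card μ = 0 ∨ Multiset.card μ = 1 ∨ Multiset.card μ = 2 ∨ Multiset.card μ = 3 ∨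
    Multiset.card μ = 4 := by omega
  rcases hcard with h | h | h | h | h
  · exact Or.inl (Multiset.card_eq_zero.1 h)
  · obtain ⟨a, rfl⟩ := Multiset.card_eq_one.1 h
    have ha := h2 a (by simp)
    simp only [Multiset.sum_singleton, Multiset.card_singleton] at hs he
    have ha' : a ≤ 8 := hs
    interval_cases a <;> first | (exfalso; revert he; decide) | decide
  · obtain ⟨a, b, rfl⟩ := Multiset.card_eq_two.1 h
    have ha := h2 a (by simp)
    have hb := h2 b (by simp)
    have e : ({a, b} : Multiset ℕ).sum = a + b := by simp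
    rw [e] at hs he
    rw [h] at he
    have ha' : a ≤ 6 := by omega
    have hb' : b ≤ 6 := by omega
    clear e h hsum
    interval_cases a <;> interval_cases b <;> first | (exfalso; omega) | (exfalso; revert he; decide) | decide
  · obtain ⟨a, b, c, rfl⟩ := Multiset.card_eq_three.1 h
    have ha := h2 a (by simp)
    have hb := h2 b (by simp)
    have hc := h2 c (by simp)
    have e : ({a, b, c} : Multiset ℕ).sum = a + (b + c) := by simp
    rw [e] at hs he
    rw [h] at he
    have ha' : a ≤ 4 := by omega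
    have hb' : b ≤ 4 := by omega
    have hc' : c ≤ 4 := by omega
    clear e h hsum
    interval_cases a <;> interval_cases b <;> interval_cases c <;>
      first | (exfalso; omega) | (exfalso; revert he; decide) | decide
  · have : μ = Multiset.replicate 4 2 := by
      have h4 : ∀ c ∈ μ, c = 2 := by
        intro c hc
        obtain ⟨t, rfl⟩ := Multiset.exists_cons_of_mem hc
        have hc2 := h2 c (Multiset.mem_cons_self _ _)
        have ht : 2 * Multiset.card t ≤ t.sum := by
          have := Multiset.card_nsmul_le_sum (s := t) (a := 2)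
            (fun d hd => h2 d (Multiset.mem_cons_of_mem hd))
          simpa [mul_comm] using this
        rw [Multiset.card_cons] at h
        rw [Multiset.sum_cons] at hs
        omega
      rw [← h]
      exact Multiset.eq_replicate_card.2 h4
    subst this
    decide

theorem alt6 : ∃ g : alternatingGroup (Fin 6), ∀ z : alternatingGroup (Fin 6),
      ∃ x y : alternatingGroup (Fin 6), IsConj g x ∧ IsConj g y ∧ x * y = z := by
  refine cls 6 {2, 2} (by decide) (by decide) (fun σ hσ => trans_type ?_)
  rcases small6 σ.cycleType (fun c hc => two_le_of_mem_cycleType hc)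
    (by have := σ.sum_cycleType_le; simpa using this) (parity hσ) with h | h | h | h | h | h <;> rw [h]
  · exact wit [[0, 1], [2, 3]] [[0, 1], [2, 3]] [] (by decide) (by decide) (by decide) (by decide)
      (by decide) (by decide) (by decide) (by decide) (by decide) (by decide)
  · exact wit [[0, 1], [2, 3]] [[1, 4], [2, 3]] [[0, 1, 4]] (by decide) (by decide) (by decide) (by decide)
      (by decide) (by decide) (by decide) (by decide) (by decide) (by decide)
  · exact wit [[0, 1], [2, 3]] [[1, 2], [3, 4]] [[0, 1, 3, 4, 2]] (by decide) (by decide) (by decide) (by decide)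
      (by decide) (by decide) (by decide) (by decide) (by decide) (by decide)
  · exact wit [[0, 1], [2, 3]] [[2, 3], [4, 5]] [[0, 1], [4, 5]] (by decide) (by decide) (by decide) (by decide)
      (by decide) (by decide) (by decide) (by decide) (by decide) (by decide)
  · exact wit [[0, 1], [2, 3]] [[2, 4], [3, 5]] [[0, 1], [2, 4, 3, 5]] (by decide) (by decide) (by decide)
      (by decide) (by decide) (by decide) (by decide) (by decide) (by decide) (by decide)
  · exact wit [[0, 1], [2, 3]] [[1, 4], [3, 5]] [[0, 1, 4], [2, 3, 5]] (by decide) (by decide) (by decide)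
      (by decide) (by decide) (by decide) (by decide) (by decide) (by decide) (by decide)

theorem alt8 : ∃ g : alternatingGroup (Fin 8), ∀ z : alternatingGroup (Fin 8),
      ∃ x y : alternatingGroup (Fin 8), IsConj g x ∧ IsConj g y ∧ x * y = z := by
  refine cls 8 {3, 3} (by decide) (by decide) (fun σ hσ => trans_type ?_)
  rcases small8 σ.cycleType (fun c hc => two_le_of_mem_cycleType hc)
    (by have := σ.sum_cycleType_le; simpa using this) (parity hσ) with
    h | h | h | h | h | h | h | h | h | h | h | h <;> rw [h]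
  · exact wit [[0, 1, 2], [3, 4, 5]] [[0, 2, 1], [3, 5, 4]] [] (by decide) (by decide) (by decide) (by decide)
      (by decide) (by decide) (by decide) (by decide) (by decide) (by decide)
  · exact wit [[0, 1, 2], [3, 4, 5]] [[1, 6, 2], [3, 5, 4]] [[0, 1, 6]] (by decide) (by decide) (by decide)
      (by decide) (by decide) (by decide) (by decide) (by decide) (by decide) (by decide)
  · exact wit [[0, 1, 2], [3, 4, 5]] [[2, 6, 7], [3, 5, 4]] [[0, 1, 2, 6, 7]] (by decide) (by decide) (by decide)
      (by decide) (by decide) (by decide) (by decide) (by decide) (by decide) (by decide)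
  · exact wit [[0, 1, 2], [3, 4, 5]] [[2, 3, 5], [4, 6, 7]] [[0, 1, 2, 4, 6, 7, 5]] (by decide) (by decide)
      (by decide) (by decide) (by decide) (by decide) (by decide) (by decide) (by decide) (by decide)
  · exact wit [[0, 1, 2], [3, 4, 5]] [[1, 2, 6], [3, 5, 4]] [[0, 1], [2, 6]] (by decide) (by decide) (by decide)
      (by decide) (by decide) (by decide) (by decide) (by decide) (by decide) (by decide)
  · exact wit [[0, 1, 2], [3, 4, 5]] [[1, 2, 3], [4, 6, 5]] [[0, 1], [2, 4, 6, 3]] (by decide) (by decide)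
      (by decide) (by decide) (by decide) (by decide) (by decide) (by decide) (by decide) (by decide)
  · exact wit [[0, 1, 2], [3, 4, 5]] [[1, 3, 6], [2, 5, 4]] [[0, 1, 4], [2, 3, 6]] (by decide) (by decide)
      (by decide) (by decide) (by decide) (by decide) (by decide) (by decide) (by decide) (by decide)
  · exact wit [[0, 1, 2], [3, 4, 5]] [[2, 3, 6], [4, 5, 7]] [[0, 1, 2, 4, 3, 6], [5, 7]] (by decide) (by decide)
      (by decide) (by decide) (by decide) (by decide) (by decide) (by decide) (by decide) (by decide)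
  · exact wit [[0, 1, 2], [3, 4, 5]] [[2, 6, 7], [3, 4, 5]] [[0, 1, 2, 6, 7], [3, 5, 4]] (by decide) (by decide)
      (by decide) (by decide) (by decide) (by decide) (by decide) (by decide) (by decide) (by decide)
  · exact wit [[0, 1, 2], [3, 4, 5]] [[2, 3, 4], [5, 6, 7]] [[0, 1, 2, 4], [3, 5, 6, 7]] (by decide) (by decide)
      (by decide) (by decide) (by decide) (by decide) (by decide) (by decide) (by decide) (by decide)
  · exact wit [[0, 1, 2], [3, 4, 5]] [[1, 2, 3], [4, 5, 6]] [[2, 4, 3], [0, 1], [5, 6]] (by decide) (by decide)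
      (by decide) (by decide) (by decide) (by decide) (by decide) (by decide) (by decide) (by decide)
  · exact wit [[0, 1, 2], [3, 4, 5]] [[1, 2, 6], [4, 5, 7]] [[0, 1], [2, 6], [3, 4], [5, 7]] (by decide)
      (by decide) (by decide) (by decide) (by decide) (by decide) (by decide) (by decide) (by decide) (by decide)

/-- Odd `l`-cycles with `3 n / 4 - 3 / 4 ≤ l ≤ n - 2`. -/
theorem alt_of (n l : ℕ) (hl : Odd l) (h2 : 2 ≤ l) (h3 : 3 * n ≤ 4 * l + 3) (h4 : l + 2 ≤ n) :
    ∃ g : alternatingGroup (Fin n), ∀ z : alternatingGroup (Fin n),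
      ∃ x y : alternatingGroup (Fin n), IsConj g x ∧ IsConj g y ∧ x * y = z := by
  refine cls n {l} (by simpa using h4) (by simpa using hl.add_one) (fun σ hσ => ?_)
  obtain ⟨a, b, ha, hb, ca, cb, hab⟩ := bertram (α := Fin n) h2 (by rw [Fintype.card_fin]; omega)
    (by rw [Fintype.card_fin]; exact h3) σ hσ
  exact ⟨a, b, by rw [ha.cycleType, ca], by rw [hb.cycleType, cb], hab⟩

/-- **Thompson's conjecture for the alternating groups** (known: Hsu 1965). -/
theorem alt (n : ℕ) (hn : 5 ≤ n) :
    ∃ g : alternatingGroup (Fin n), ∀ z : alternatingGroup (Fin n),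
      ∃ x y : alternatingGroup (Fin n), IsConj g x ∧ IsConj g y ∧ x * y = z := by
  rcases Nat.even_or_odd' n with ⟨k, hk | hk⟩
  · by_cases h6 : n = 6
    · subst h6; exact alt6
    by_cases h8 : n = 8
    · subst h8; exact alt8
    exact alt_of n (n - 3) ⟨k - 2, by omega⟩ (by omega) (by omega) (by omega)
  · exact alt_of n (n - 2) ⟨k - 1, by omega⟩ (by omega) (by omega) (by omega)

end Pool.Agent.ThA
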