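import Mathlib

/-!
# Thompson's conjecture for `PSL_2(K)`

For every finite field `K` with at least four elements the class of `diag(r, 1/r)`, `r ^ 2 ≠ 1`, has square
`PSL_2(K)`.  This is a known theorem: the file is a helper.
-/

namespace Pool.Agent.ThA
open Matrix SpecialLinearGroup

variable {K : Type*} [Field K]

/-- A matrix of determinant one with two different eigenvalues is conjugate to the diagonal matrix. -/
theorem conj_diag {r r' : K} (hr : r * r' = 1) (hne : r ≠ r') (X : SpecialLinearGroup (Fin 2) K)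
    (hX : X.1 0 0 + X.1 1 1 = r + r') (D : SpecialLinearGroup (Fin 2) K) (hD : D.1 = !![r, 0; 0, r']) :
    IsConj D X := by
  have hd : X.1 0 0 * X.1 1 1 - X.1 0 1 * X.1 1 0 = 1 := by
    have := X.2; rwa [Matrix.det_fin_two] at this
  obtain ⟨a, ha⟩ : ∃ a, a = X.1 0 0 := ⟨_, rfl⟩
  obtain ⟨b, hb⟩ : ∃ b, b = X.1 0 1 := ⟨_, rfl⟩
  obtain ⟨c, hc⟩ : ∃ c, c = X.1 1 0 := ⟨_, rfl⟩
  obtain ⟨d, hdd⟩ : ∃ d, d = X.1 1 1 := ⟨_, rfl⟩
  rw [← ha, ← hdd] at hX
  rw [← ha, ← hb, ← hc, ← hdd] at hd
  have hXe : X.1 = !![a, b; c, d] := by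
    ext i j
    fin_cases i <;> fin_cases j <;> simp [ha, hb, hc, hdd]
  have hdelta : r - r' ≠ 0 := sub_ne_zero.2 hne
  -- it is enough to find `P` with `P D = X P`
  suffices h : ∃ P : SpecialLinearGroup (Fin 2) K, P * D = X * P by
    obtain ⟨P, hP⟩ := h
    rw [isConj_iff]
    exact ⟨P, by rw [hP]; group⟩
  -- an element with the eigenvectors as columns
  have key : ∀ (p q s t : K), p * t - q * s = 1 → p * r = a * p + b * s → q * r' = a * q + b * t →
      s * r = c * p + d * s → t * r' = c * q + d * t →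
      ∃ P : SpecialLinearGroup (Fin 2) K, P * D = X * P := by
    intro p q s t h0 h1 h2 h3 h4
    refine ⟨⟨!![p, q; s, t], by rw [Matrix.det_fin_two_of]; exact h0⟩, ?_⟩
    apply Subtype.ext
    show (!![p, q; s, t] : Matrix (Fin 2) (Fin 2) K) * D.1 = X.1 * !![p, q; s, t]
    rw [hD, hXe, Matrix.mul_fin_two, Matrix.mul_fin_two]
    ext i j
    fin_cases i <;> fin_cases j <;> simp only [Fin.zero_eta, Fin.mk_one, Matrix.of_apply, Matrix.cons_val_zero, Matrix.cons_val_one, Matrix.cons_val_fin_one] <;> first | linear_combination h1 | linear_combination h2 | linear_combination h3 | linear_combination h4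
  have hchar : (a - r) * (a - r') = -(b * c) := by
    linear_combination a * hX + hr - hd
  by_cases hbz : b = 0
  · -- lower triangular
    have h0 : (a - r) * (a - r') = 0 := by rw [hchar, hbz]; ring
    rcases mul_eq_zero.1 h0 with h | h
    · -- a = r, d = r'
      have har : a = r := sub_eq_zero.1 h
      have hdr : d = r' := by linear_combination hX - har
      refine key 1 0 (c / (r - r')) 1 (by ring) ?_ ?_ ?_ ?_
      · rw [hbz, har]; ring
      · rw [hbz]; ring
      · rw [hdr]; field_simp; ring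
      · rw [hdr]; ring
    · have har : a = r' := sub_eq_zero.1 h
      have hdr : d = r := by linear_combination hX - har
      refine key 0 (-1) 1 (c / (r - r')) (by ring) ?_ ?_ ?_ ?_
      · rw [hbz]; ring
      · rw [hbz, har]; ring
      · rw [hdr]; ring
      · rw [hdr]; field_simp; ring
  · -- eigenvectors (b, r - a), (b, r' - a), determinant b (r' - r)
    refine key b (1 / (r' - r)) (r - a) ((r' - a) / (b * (r' - r))) ?_ ?_ ?_ ?_ ?_
    · have : r' - r ≠ 0 := sub_ne_zero.2 hne.symm
      field_simp; ring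
    · ring
    · have : r' - r ≠ 0 := sub_ne_zero.2 hne.symm
      field_simp; ring
    · linear_combination -hchar - (r - a) * hX
    · have : r' - r ≠ 0 := sub_ne_zero.2 hne.symm
      field_simp
      linear_combination -hchar - (r' - a) * hX

/-- A non scalar matrix of determinant one is conjugate under `GL_2` to a companion matrix. -/
theorem comp (g : SpecialLinearGroup (Fin 2) K) (hg : ¬ ∃ c : K, g.1 = c • (1 : Matrix (Fin 2) (Fin 2) K)) :
    ∃ P Q : Matrix (Fin 2) (Fin 2) K, P * Q = 1 ∧ Q * P = 1 ∧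
      g.1 = P * !![0, -1; 1, g.1 0 0 + g.1 1 1] * Q := by
  obtain ⟨a, ha⟩ : ∃ a, a = g.1 0 0 := ⟨_, rfl⟩
  obtain ⟨b, hb⟩ : ∃ b, b = g.1 0 1 := ⟨_, rfl⟩
  obtain ⟨c, hc⟩ : ∃ c, c = g.1 1 0 := ⟨_, rfl⟩
  obtain ⟨d, hdd⟩ : ∃ d, d = g.1 1 1 := ⟨_, rfl⟩
  have hXe : g.1 = !![a, b; c, d] := by
    ext i j
    fin_cases i <;> fin_cases j <;> simp [ha, hb, hc, hdd]
  have hd : a * d - b * c = 1 := by
    have := g.2; rwa [hXe, Matrix.det_fin_two_of] at this
  rw [← ha, ← hdd]
  -- `P = (v, g v)` with an invertible determinant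
  have key : ∀ p s : K, p * (c * p + d * s) - s * (a * p + b * s) ≠ 0 →
      ∃ P Q : Matrix (Fin 2) (Fin 2) K, P * Q = 1 ∧ Q * P = 1 ∧ g.1 = P * !![0, -1; 1, a + d] * Q := by
    intro p s h
    obtain ⟨P, hP⟩ : ∃ P : Matrix (Fin 2) (Fin 2) K, P = !![p, a * p + b * s; s, c * p + d * s] := ⟨_, rfl⟩
    have hdet : P.det ≠ 0 := by
      rw [hP, Matrix.det_fin_two_of]
      intro h0; apply h; linear_combination h0
    have hu : IsUnit P.det := isUnit_iff_ne_zero.2 hdet
    refine ⟨P, P⁻¹, Matrix.mul_nonsing_inv P hu, Matrix.nonsing_inv_mul P hu, ?_⟩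
    have : g.1 * P = P * !![0, -1; 1, a + d] := by
      rw [hP, hXe, Matrix.mul_fin_two, Matrix.mul_fin_two]
      ext i j
      fin_cases i <;> fin_cases j <;> simp only [Fin.zero_eta, Fin.mk_one, Matrix.of_apply, Matrix.cons_val_zero, Matrix.cons_val_one, Matrix.cons_val_fin_one]
      · ring
      · linear_combination -p * hd
      · ring
      · linear_combination -s * hd
    rw [← this, Matrix.mul_assoc, Matrix.mul_nonsing_inv P hu, Matrix.mul_one]
  by_cases hc0 : c = 0
  · by_cases hb0 : b = 0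
    · by_cases had : a = d
      · exfalso
        apply hg
        refine ⟨a, ?_⟩
        rw [hXe, hb0, hc0, ← had]
        ext i j
        fin_cases i <;> fin_cases j <;> simp
      · refine key 1 1 ?_
        rw [hb0, hc0]
        intro h
        apply had
        linear_combination -h
    · refine key 0 1 ?_
      intro h
      apply hb0
      linear_combination -h
  · refine key 1 0 ?_
    intro h
    apply hc0
    linear_combination h

/-- Every non scalar matrix of determinant one is a product of two matrices with the eigenvalues `r`, `1/r`. -/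
theorem prod_two {r r' : K} (hr : r * r' = 1) (hne : r ≠ r') (g : SpecialLinearGroup (Fin 2) K)
    (hg : ¬ ∃ c : K, g.1 = c • (1 : Matrix (Fin 2) (Fin 2) K))
    (D : SpecialLinearGroup (Fin 2) K) (hD : D.1 = !![r, 0; 0, r']) :
    ∃ x y : SpecialLinearGroup (Fin 2) K, IsConj D x ∧ IsConj D y ∧ x * y = g := by
  obtain ⟨P, Q, hPQ, hQP, hgg⟩ := comp g hg
  obtain ⟨s, hs⟩ : ∃ s, s = g.1 0 0 + g.1 1 1 := ⟨_, rfl⟩
  rw [← hs] at hgg
  have hdPQ : P.det * Q.det = 1 := by rw [← Matrix.det_mul, hPQ, Matrix.det_one]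
  have conj : ∀ M : Matrix (Fin 2) (Fin 2) K, M.det = 1 → M 0 0 + M 1 1 = r + r' →
      ∃ x : SpecialLinearGroup (Fin 2) K, x.1 = P * M * Q ∧ IsConj D x := by
    intro M hM ht
    have h1 : (P * M * Q).det = 1 := by
      rw [Matrix.det_mul, Matrix.det_mul, hM, mul_one, hdPQ]
    refine ⟨⟨P * M * Q, h1⟩, rfl, conj_diag hr hne _ ?_ D hD⟩
    have h2 : (P * M * Q).trace = M.trace := by
      rw [Matrix.trace_mul_comm, ← Matrix.mul_assoc, hQP, Matrix.one_mul]
    rw [Matrix.trace_fin_two, Matrix.trace_fin_two] at h2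
    show (P * M * Q) 0 0 + (P * M * Q) 1 1 = r + r'
    rw [h2, ht]
  obtain ⟨x, hx, hcx⟩ := conj !![r, 0; (r + r') - r * s, r'] (by rw [Matrix.det_fin_two_of]; linear_combination hr)
    (by simp)
  obtain ⟨y, hy, hcy⟩ := conj !![0, -r'; r, r + r'] (by rw [Matrix.det_fin_two_of]; linear_combination hr)
    (by simp)
  refine ⟨x, y, hcx, hcy, ?_⟩
  apply Subtype.ext
  show x.1 * y.1 = g.1
  have hprod : (!![r, 0; (r + r') - r * s, r'] : Matrix (Fin 2) (Fin 2) K) * !![0, -r'; r, r + r']
      = !![0, -1; 1, s] := by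
    rw [Matrix.mul_fin_two]
    ext i j
    fin_cases i <;> fin_cases j <;> simp only [Fin.zero_eta, Fin.mk_one, Matrix.of_apply, Matrix.cons_val_zero, Matrix.cons_val_one, Matrix.cons_val_fin_one]
    · ring
    · linear_combination -hr
    · linear_combination hr
    · linear_combination s * hr
  calc x.1 * y.1 = P * !![r, 0; (r + r') - r * s, r'] * (Q * P) * !![0, -r'; r, r + r'] * Q := by
        rw [hx, hy]; simp only [Matrix.mul_assoc]
    _ = P * (!![r, 0; (r + r') - r * s, r'] * !![0, -r'; r, r + r']) * Q := by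
        rw [hQP, Matrix.mul_one]; simp only [Matrix.mul_assoc]
    _ = g.1 := by rw [hprod, ← hgg]

/-- **Thompson's conjecture for `PSL_2(K)`** (known). -/
theorem psl2 (K : Type*) [Field K] [Finite K] (hK : 4 ≤ Nat.card K) :
    ∃ g : SpecialLinearGroup (Fin 2) K ⧸ Subgroup.center (SpecialLinearGroup (Fin 2) K),
      ∀ z : SpecialLinearGroup (Fin 2) K ⧸ Subgroup.center (SpecialLinearGroup (Fin 2) K),
        ∃ x y : SpecialLinearGroup (Fin 2) K ⧸ Subgroup.center (SpecialLinearGroup (Fin 2) K),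
          IsConj g x ∧ IsConj g y ∧ x * y = z := by
  -- `r` with `r ^ 2 ≠ 1`
  obtain ⟨r, r', hr, hne⟩ : ∃ r r' : K, r * r' = 1 ∧ r ≠ r' := by
    by_contra hcon
    push Not at hcon
    have hall : ∀ x : K, x = 0 ∨ x = 1 ∨ x = -1 := by
      intro x
      by_cases hx : x = 0
      · exact Or.inl hx
      · right
        have h1 := hcon x x⁻¹ (mul_inv_cancel₀ hx)
        have h2 : x * x = 1 := by nth_rewrite 2 [h1]; exact mul_inv_cancel₀ hx
        exact mul_self_eq_one_iff.1 h2
    classical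
    have : Fintype K := Fintype.ofFinite K
    have hle : Nat.card K ≤ 3 := by
      rw [Nat.card_eq_fintype_card, ← Finset.card_univ]
      calc (Finset.univ : Finset K).card ≤ ({0, 1, -1} : Finset K).card :=
            Finset.card_le_card (fun x _ => by simpa using hall x)
        _ ≤ 3 := Finset.card_le_three
    omega
  set D : SpecialLinearGroup (Fin 2) K := ⟨!![r, 0; 0, r'], by rw [Matrix.det_fin_two_of]; linear_combination hr⟩
    with hDdef
  have hD : D.1 = !![r, 0; 0, r'] := rfl
  refine ⟨QuotientGroup.mk D, fun z => ?_⟩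
  obtain ⟨z, rfl⟩ := QuotientGroup.mk_surjective z
  by_cases hz : ∃ c : K, z.1 = c • (1 : Matrix (Fin 2) (Fin 2) K)
  · -- central: `D * D⁻¹`
    have hzc : z ∈ Subgroup.center (SpecialLinearGroup (Fin 2) K) := by
      obtain ⟨c, hc⟩ := hz
      rw [Subgroup.mem_center_iff]
      intro w
      apply Subtype.ext
      show w.1 * z.1 = z.1 * w.1
      rw [hc, Matrix.mul_smul, Matrix.smul_mul, Matrix.mul_one, Matrix.one_mul]
    have hinv : IsConj D D⁻¹ := by
      refine conj_diag hr hne _ ?_ D hD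
      have h1 : (D⁻¹).1 = !![r', 0; 0, r] := by
        have h2 : (D⁻¹).1 = adjugate D.1 := rfl
        rw [h2, hD, Matrix.adjugate_fin_two_of]
        simp
      rw [h1]
      simp [add_comm]
    refine ⟨QuotientGroup.mk D, QuotientGroup.mk D⁻¹, IsConj.refl _, ?_, ?_⟩
    · exact (QuotientGroup.mk' (Subgroup.center (SpecialLinearGroup (Fin 2) K))).map_isConj hinv
    · rw [← QuotientGroup.mk_mul, mul_inv_cancel]
      exact QuotientGroup.eq.2 (by simpa using hzc)
  · obtain ⟨x, y, hx, hy, hxy⟩ := prod_two hr hne z hz D hD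
    refine ⟨QuotientGroup.mk x, QuotientGroup.mk y, ?_, ?_, ?_⟩
    · exact (QuotientGroup.mk' (Subgroup.center (SpecialLinearGroup (Fin 2) K))).map_isConj hx
    · exact (QuotientGroup.mk' (Subgroup.center (SpecialLinearGroup (Fin 2) K))).map_isConj hy
    · rw [← QuotientGroup.mk_mul, hxy]

end Pool.Agent.ThA
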