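import Pool.Agent.ThL.Main
import Pool.Agent.ThL.Lin
import Pool.Agent.ThA.Psl2

/-! # Thompson's conjecture for all groups `PSL_n(K)` -/

namespace Pool.Agent.ThA

/-- every simple group `PSL_n(K)`, `K` a finite field, has a conjugacy class `C` with `C * C = PSL_n(K)` -/
theorem psl (K : Type) [Field K] [Finite K] (n : ℕ) (hn : 2 ≤ n) (h : n = 2 → 4 ≤ Nat.card K) :
    ∃ g : Matrix.SpecialLinearGroup (Fin n) K ⧸
        Subgroup.center (Matrix.SpecialLinearGroup (Fin n) K),
      ∀ z : Matrix.SpecialLinearGroup (Fin n) K ⧸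
          Subgroup.center (Matrix.SpecialLinearGroup (Fin n) K),
        ∃ x y : Matrix.SpecialLinearGroup (Fin n) K ⧸
            Subgroup.center (Matrix.SpecialLinearGroup (Fin n) K),
          IsConj g x ∧ IsConj g y ∧ x * y = z := by
  rcases Nat.eq_or_lt_of_le hn with h2 | h3
  · subst h2
    exact psl2 K (h rfl)
  · have hc : 1 < Nat.card K := Finite.one_lt_card
    rcases (by omega : Nat.card K = 2 ∨ 3 ≤ Nat.card K) with hK | hK
    · exact ThL.sl_two hK h3
    · exact ThL.sl_three hK h3

end Pool.Agent.ThA
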